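import Mathlib

namespace Pool.Agent.P.MP_b60056_nt

/-- Sweeping along an arithmetic progression just after the vertex of a cubic. -/
theorem sweep (ν X x0 η δ q : ℝ) (hq : 2 ≤ q) (hν1 : 5 / 6 ≤ ν * q ^ 10) (hν2 : ν * q ^ 10 ≤ 5 / 3)
    (hX1 : q ^ 4 / 3 ≤ X) (hX2 : X ≤ 11 / 10 * q ^ 4) (hx0 : x0 ≤ X) :
    ∃ (n : ℤ) (t : ℕ), X ≤ x0 + q * t ∧ x0 + q * t ≤ 3 * q ^ 4 ∧
      δ ≤ n + η - 3 * ν * X ^ 2 * (x0 + q * t) + ν * (x0 + q * t) ^ 3 ∧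
      n + η - 3 * ν * X ^ 2 * (x0 + q * t) + ν * (x0 + q * t) ^ 3 ≤ δ + 40 / q ^ 2 := by
  have hq0 : 0 < q := by linarith
  have hq10 : 0 < q ^ 10 := by positivity
  have hν0 : 0 < ν := by
    by_contra h
    push Not at h
    have : ν * q ^ 10 ≤ 0 := mul_nonpos_of_nonpos_of_nonneg h hq10.le
    linarith
  have hq4 : 0 < q ^ 4 := by positivity
  have hX0 : 0 < X := by linarith
  set n : ℤ := ⌊δ - η + 2 * ν * X ^ 3⌋ with hn
  have hn1 : (n : ℝ) ≤ δ - η + 2 * ν * X ^ 3 := Int.floor_le _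
  have hn2 : δ - η + 2 * ν * X ^ 3 < n + 1 := Int.lt_floor_add_one _
  let ω : ℝ → ℝ := fun x => n + η - 3 * ν * X ^ 2 * x + ν * x ^ 3
  have hωc : Continuous ω := by fun_prop
  have h1 : ω X ≤ δ := by simp only [ω]; nlinarith
  have h2 : δ ≤ ω (X + q ^ 4) := by
    have e : ω (X + q ^ 4) = (n + η - 2 * ν * X ^ 3) + ν * q ^ 8 * (3 * X + q ^ 4) := by
      simp only [ω]; ring
    have h3 : ν * q ^ 8 * (2 * q ^ 4) ≤ ν * q ^ 8 * (3 * X + q ^ 4) := by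
      apply mul_le_mul_of_nonneg_left _ (by positivity); linarith
    have h4 : ν * q ^ 8 * (2 * q ^ 4) = (ν * q ^ 10) * (2 * q ^ 2) := by ring
    have h5 : (5 / 6 : ℝ) * (2 * q ^ 2) ≤ (ν * q ^ 10) * (2 * q ^ 2) :=
      mul_le_mul_of_nonneg_right hν1 (by positivity)
    nlinarith
  obtain ⟨z, ⟨hz1, hz2⟩, hz⟩ := intermediate_value_Icc (by linarith : X ≤ X + q ^ 4)
    hωc.continuousOn ⟨h1, h2⟩
  have hzω : (n : ℝ) + η - 3 * ν * X ^ 2 * z + ν * z ^ 3 = δ := hz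
  set t : ℕ := ⌈(z - x0) / q⌉₊ with ht
  have hnn : 0 ≤ (z - x0) / q := div_nonneg (by linarith) hq0.le
  have ht1 : (z - x0) / q ≤ t := Nat.le_ceil _
  have ht2 : (t : ℝ) < (z - x0) / q + 1 := Nat.ceil_lt_add_one hnn
  rw [div_le_iff₀ hq0] at ht1
  have ht2' : (t : ℝ) * q < z - x0 + q := by
    have := mul_lt_mul_of_pos_right ht2 hq0
    rwa [add_mul, div_mul_cancel₀ _ hq0.ne', one_mul] at this
  set x := x0 + q * t with hx
  have hx1 : z ≤ x := by rw [hx]; linarith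
  have hx2 : x ≤ z + q := by rw [hx]; linarith
  set y := z - X with hy
  have hy0 : 0 ≤ y := by linarith
  have hyb : ν * y ^ 2 * (z + 2 * X) ≤ 1 := by
    have : ν * y ^ 2 * (z + 2 * X) = (ν * z ^ 3 - 3 * ν * X ^ 2 * z) + 2 * ν * X ^ 3 := by
      rw [hy]; ring
    linarith
  have hq3 : q ≤ q ^ 3 / 4 := by
    have h4 : 4 ≤ q ^ 2 := by nlinarith
    have h5 : q * 4 ≤ q * q ^ 2 := mul_le_mul_of_nonneg_left h4 hq0.le
    nlinarith
  have hq34 : q ^ 3 ≤ q ^ 4 / 2 := by nlinarith [pow_pos hq0 3]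
  have hy3 : y ≤ 11 / 10 * q ^ 3 := by
    by_contra h
    push Not at h
    have h5 : (11 / 10 * q ^ 3) ^ 2 < y ^ 2 := by
      apply pow_lt_pow_left₀ h (by positivity) (by norm_num)
    have h6 : q ^ 4 ≤ z + 2 * X := by linarith
    have h7 : ν * (11 / 10 * q ^ 3) ^ 2 * q ^ 4 ≤ ν * y ^ 2 * (z + 2 * X) := by
      apply mul_le_mul _ h6 (by positivity) (by positivity)
      exact mul_le_mul_of_nonneg_left h5.le hν0.le
    have h8 : ν * (11 / 10 * q ^ 3) ^ 2 * q ^ 4 = 121 / 100 * (ν * q ^ 10) := by ring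
    linarith
  refine ⟨n, t, by linarith, by linarith, ?_, ?_⟩
  · have e : (n : ℝ) + η - 3 * ν * X ^ 2 * x + ν * x ^ 3
        = δ + ν * (x - z) * (x ^ 2 + x * z + z ^ 2 - 3 * X ^ 2) := by
      rw [← hzω]; ring
    rw [e]
    have : 0 ≤ x ^ 2 + x * z + z ^ 2 - 3 * X ^ 2 := by nlinarith
    have : 0 ≤ ν * (x - z) * (x ^ 2 + x * z + z ^ 2 - 3 * X ^ 2) := by
      apply mul_nonneg (mul_nonneg hν0.le (by linarith)) this
    linarith
  · have e : (n : ℝ) + η - 3 * ν * X ^ 2 * x + ν * x ^ 3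
        = δ + ν * (x - z) * (x ^ 2 + x * z + z ^ 2 - 3 * X ^ 2) := by
      rw [← hzω]; ring
    rw [e]
    have h5 : x ^ 2 + x * z + z ^ 2 - 3 * X ^ 2 ≤ 3 * ((x - X) * (x + X)) := by nlinarith
    have h6 : (x - X) * (x + X) ≤ (2 * q ^ 3) * (4 * q ^ 4) := by
      apply mul_le_mul (by linarith) (by linarith) (by linarith) (by positivity)
    have h7 : 0 ≤ x ^ 2 + x * z + z ^ 2 - 3 * X ^ 2 := by nlinarith
    have h8 : ν * (x - z) * (x ^ 2 + x * z + z ^ 2 - 3 * X ^ 2)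
        ≤ ν * q * (3 * ((2 * q ^ 3) * (4 * q ^ 4))) := by
      apply mul_le_mul _ (by linarith) h7 (by positivity)
      exact mul_le_mul_of_nonneg_left (by linarith) hν0.le
    have h9 : ν * q * (3 * ((2 * q ^ 3) * (4 * q ^ 4))) = 24 * (ν * q ^ 10) / q ^ 2 := by
      field_simp; ring
    have h10 : 24 * (ν * q ^ 10) / q ^ 2 ≤ 40 / q ^ 2 := by
      apply div_le_div_of_nonneg_right _ (by positivity); linarith
    linarith

/-- Error control: the value of `c u^2 - m`. -/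
theorem err_bound (C q x η w : ℝ) (hq : 5 ≤ q) (hC1 : q ^ 8 / 2 ≤ C) (hC2 : C ≤ q ^ 8)
    (hx0 : 0 ≤ x) (hx : x ≤ 3 * q ^ 4)
    (hw : w = η + 5 / (6 * q ^ 2 * C) * x ^ 3) (hw1 : 500 / q ^ 2 ≤ w) (hw2 : w ≤ 540 / q ^ 2) :
    |η| ≤ 46 * q ^ 2 ∧
    0 ≤ (C + x) * (8 * C ^ 2 / (3 * q ^ 2) - 4 * C / (3 * q ^ 2) * x + x ^ 2 / q ^ 2 + η) ^ 2
        - 64 * C ^ 5 / (9 * q ^ 4) ∧
    (C + x) * (8 * C ^ 2 / (3 * q ^ 2) - 4 * C / (3 * q ^ 2) * x + x ^ 2 / q ^ 2 + η) ^ 2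
        - 64 * C ^ 5 / (9 * q ^ 4) ≤ C * (5547 * q ^ 12) := by
  have hq0 : 0 < q := by linarith
  have hq8 : 0 < q ^ 8 := by positivity
  have hC0 : 0 < C := by linarith
  set A := 8 * C ^ 2 / (3 * q ^ 2) with hA
  set ξ := x / C with hξ
  set N := 5 / (6 * q ^ 2 * C) * x ^ 3 with hN
  have hxξ : x = ξ * C := by rw [hξ]; field_simp
  have hξ0 : 0 ≤ ξ := div_nonneg hx0 hC0.le
  have hq2 : 25 ≤ q ^ 2 := by nlinarith
  have hq4 : 625 ≤ q ^ 4 := by nlinarith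
  have hξ1 : ξ * q ^ 4 ≤ 6 := by
    rw [hξ, div_mul_eq_mul_div, div_le_iff₀ hC0]
    have : x * q ^ 4 ≤ 3 * q ^ 4 * q ^ 4 := mul_le_mul_of_nonneg_right hx (by positivity)
    nlinarith
  have hξ2 : ξ ≤ 1 := by nlinarith
  have hN0 : 0 ≤ N := by positivity
  have hN1 : N ≤ 45 * q ^ 2 := by
    rw [hN, div_mul_eq_mul_div, div_le_iff₀ (by positivity)]
    have h1 : x ^ 3 ≤ (3 * q ^ 4) ^ 3 := pow_le_pow_left₀ hx0 hx 3
    have h2 : 45 * q ^ 2 * (6 * q ^ 2 * (q ^ 8 / 2)) ≤ 45 * q ^ 2 * (6 * q ^ 2 * C) := by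
      gcongr
    nlinarith
  have hw3 : w ≤ q ^ 2 := by
    have : 540 / q ^ 2 ≤ q ^ 2 := by
      rw [div_le_iff₀ (by positivity)]; nlinarith
    linarith
  have hw0 : 0 ≤ w := le_trans (by positivity) hw1
  have hη : |η| ≤ 46 * q ^ 2 := by
    rw [abs_le]; constructor <;> nlinarith
  have hA1 : 2 / 3 * q ^ 14 ≤ A := by
    rw [hA, le_div_iff₀ (by positivity)]
    have : (q ^ 8 / 2) ^ 2 ≤ C ^ 2 := pow_le_pow_left₀ (by positivity) hC1 2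
    nlinarith
  have hA2 : A ≤ 8 / 3 * q ^ 14 := by
    rw [hA, div_le_iff₀ (by positivity)]
    have : C ^ 2 ≤ (q ^ 8) ^ 2 := pow_le_pow_left₀ hC0.le hC2 2
    nlinarith
  have hA0 : 0 < A := lt_of_lt_of_le (by positivity) hA1
  have key : (C + x) * (A - 4 * C / (3 * q ^ 2) * x + x ^ 2 / q ^ 2 + η) ^ 2
        - 64 * C ^ 5 / (9 * q ^ 4)
      = C * A * (2 * w + (N * ξ * (-15 + 9 * ξ) / 20
          + η * ξ * (1 - ξ / 4 + 3 * ξ ^ 2 / 4) + (1 + ξ) * η ^ 2 / A)) := by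
    rw [hw, hN, hA, hxξ]
    field_simp
    ring
  have e1 : |N * ξ * (-15 + 9 * ξ) / 20| ≤ 270 / q ^ 2 := by
    have h1 : N * ξ ≤ 270 / q ^ 2 := by
      rw [le_div_iff₀ (by positivity)]
      have : N * (ξ * q ^ 2) ≤ 45 * q ^ 2 * (ξ * q ^ 2) :=
        mul_le_mul_of_nonneg_right hN1 (by positivity)
      nlinarith
    have h2 : 0 ≤ N * ξ := by positivity
    rw [abs_le]; constructor <;> nlinarith
  have e2 : |η * ξ * (1 - ξ / 4 + 3 * ξ ^ 2 / 4)| ≤ 552 / q ^ 2 := by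
    have h1 : |η| * ξ ≤ 276 / q ^ 2 := by
      rw [le_div_iff₀ (by positivity)]
      have : |η| * (ξ * q ^ 2) ≤ 46 * q ^ 2 * (ξ * q ^ 2) :=
        mul_le_mul_of_nonneg_right hη (by positivity)
      nlinarith
    have h2 : |1 - ξ / 4 + 3 * ξ ^ 2 / 4| ≤ 2 := by
      rw [abs_le]; constructor <;> nlinarith
    rw [abs_mul, abs_mul, abs_of_nonneg hξ0]
    calc |η| * ξ * |1 - ξ / 4 + 3 * ξ ^ 2 / 4| ≤ 276 / q ^ 2 * 2 :=
          mul_le_mul h1 h2 (abs_nonneg _) (by positivity)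
      _ = 552 / q ^ 2 := by ring
  have e3 : (1 + ξ) * η ^ 2 / A ≤ 172 / q ^ 2 := by
    rw [div_le_div_iff₀ hA0 (by positivity)]
    have h1 : η ^ 2 ≤ (46 * q ^ 2) ^ 2 := by
      rw [← sq_abs]; exact pow_le_pow_left₀ (abs_nonneg _) hη 2
    have h2 : (1 + ξ) * η ^ 2 ≤ 2 * (46 * q ^ 2) ^ 2 :=
      mul_le_mul (by linarith) h1 (by positivity) (by norm_num)
    have h3 : (1 + ξ) * η ^ 2 * q ^ 2 ≤ 2 * (46 * q ^ 2) ^ 2 * q ^ 2 :=
      mul_le_mul_of_nonneg_right h2 (by positivity)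
    have h4 : 625 * 625 * q ^ 6 ≤ q ^ 14 := by
      have : 625 * 625 ≤ q ^ 4 * q ^ 4 := mul_le_mul hq4 hq4 (by norm_num) (by positivity)
      have h5 : 625 * 625 * q ^ 6 ≤ q ^ 4 * q ^ 4 * q ^ 6 :=
        mul_le_mul_of_nonneg_right this (by positivity)
      nlinarith
    have : 0 < q ^ 6 := by positivity
    nlinarith
  have e4 : 0 ≤ (1 + ξ) * η ^ 2 / A := by positivity
  rw [abs_le] at e1 e2
  have hq2' : 0 < 1 / q ^ 2 := by positivity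
  have r1 : (270 : ℝ) / q ^ 2 = 270 * (1 / q ^ 2) := by ring
  have r2 : (552 : ℝ) / q ^ 2 = 552 * (1 / q ^ 2) := by ring
  have r3 : (172 : ℝ) / q ^ 2 = 172 * (1 / q ^ 2) := by ring
  have r4 : (500 : ℝ) / q ^ 2 = 500 * (1 / q ^ 2) := by ring
  have r5 : (540 : ℝ) / q ^ 2 = 540 * (1 / q ^ 2) := by ring
  refine ⟨hη, ?_, ?_⟩
  · rw [key]
    apply mul_nonneg (by positivity)
    linarith [e1.1, e2.1]
  · rw [key, mul_assoc]
    apply mul_le_mul_of_nonneg_left _ hC0.le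
    have h1 : 2 * w + (N * ξ * (-15 + 9 * ξ) / 20
          + η * ξ * (1 - ξ / 4 + 3 * ξ ^ 2 / 4) + (1 + ξ) * η ^ 2 / A) ≤ 2080 * (1 / q ^ 2) := by
      linarith [e1.2, e2.2]
    calc A * _ ≤ A * (2080 * (1 / q ^ 2)) := mul_le_mul_of_nonneg_left h1 hA0.le
      _ ≤ 8 / 3 * q ^ 14 * (2080 * (1 / q ^ 2)) :=
          mul_le_mul_of_nonneg_right hA2 (by positivity)
      _ = 16640 / 3 * q ^ 12 := by field_simp; ring
      _ ≤ 5547 * q ^ 12 := by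
          apply mul_le_mul_of_nonneg_right (by norm_num) (by positivity)

end Pool.Agent.P.MP_b60056_nt
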