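import Mathlib
import Pool.Agent.P.MP_b60056_nt.Sweep

namespace Pool.Agent.P.MP_b60056_nt

/-- A lattice point `(c, u)` just above the curve `c u^2 = m`. -/
theorem near_point (q : ℕ) (hq : 5 ≤ q) (C : ℝ) (hC1 : (q : ℝ) ^ 8 / 2 ≤ C) (hC2 : C ≤ (q : ℝ) ^ 8) :
    ∃ (c : ℕ) (u : ℤ), C ≤ c ∧ (c : ℝ) ≤ 2 * (q : ℝ) ^ 8 ∧
      (q : ℝ) ^ 14 / 3 - 46 * (q : ℝ) ^ 2 ≤ u ∧ (u : ℝ) ≤ 5 * (q : ℝ) ^ 14 ∧
      0 ≤ (c : ℝ) * (u : ℝ) ^ 2 - 64 * C ^ 5 / (9 * (q : ℝ) ^ 4) ∧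
      (c : ℝ) * (u : ℝ) ^ 2 - 64 * C ^ 5 / (9 * (q : ℝ) ^ 4) ≤ C * (5547 * (q : ℝ) ^ 12) := by
  set Q : ℝ := (q : ℝ) with hQ
  have hQ5 : (5 : ℝ) ≤ Q := by rw [hQ]; exact_mod_cast hq
  have hQ0 : 0 < Q := by linarith
  have hQ8 : 0 < Q ^ 8 := by positivity
  have hC0 : 0 < C := by linarith
  have hQ2 : 25 ≤ Q ^ 2 := by nlinarith
  have hQ4 : 625 ≤ Q ^ 4 := by nlinarith
  set A := 8 * C ^ 2 / (3 * Q ^ 2) with hA
  set B := 4 * C / (3 * Q ^ 2) with hB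
  set ν := 5 / (6 * Q ^ 2 * C) with hν
  have hν0 : 0 < ν := by positivity
  set ca : ℕ := ⌈C⌉₊ with hca
  have hca1 : C ≤ ca := Nat.le_ceil _
  have hca2 : (ca : ℝ) < C + 1 := Nat.ceil_lt_add_one hC0.le
  set β : ℝ := -Q * B + 2 * (ca - C) / Q with hβ
  set Z : ℤ := ⌈β⌉ with hZ
  have hZ1 : β ≤ Z := Int.le_ceil _
  have hZ2 : (Z : ℝ) < β + 1 := Int.ceil_lt_add_one _
  set s : ℕ := ⌈(Q * (Z - β) + 1) / 2⌉₊ with hs
  have hsn : 0 ≤ (Q * (Z - β) + 1) / 2 := by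
    have : 0 ≤ Q * (Z - β) := mul_nonneg hQ0.le (by linarith)
    linarith
  have hs1 : (Q * (Z - β) + 1) / 2 ≤ s := Nat.le_ceil _
  have hs2 : (s : ℝ) < (Q * (Z - β) + 1) / 2 + 1 := Nat.ceil_lt_add_one hsn
  have hsQ : (s : ℝ) ≤ Q := by
    have : Q * (Z - β) ≤ Q * 1 := mul_le_mul_of_nonneg_left (by linarith) hQ0.le
    linarith
  set x0 : ℝ := ca - C + s with hx0
  have hs0 : (0 : ℝ) ≤ s := Nat.cast_nonneg _
  have hx00 : 0 ≤ x0 := by rw [hx0]; linarith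
  have hx01 : x0 ≤ Q + 1 := by rw [hx0]; linarith
  set σ : ℝ := β + 2 * s / Q - Z with hσ
  have hσQ : σ * Q = 2 * s - Q * (Z - β) := by rw [hσ]; field_simp; ring
  have hσ1 : 1 ≤ σ * Q := by rw [hσQ]; linarith
  have hσ2 : σ * Q ≤ 3 := by rw [hσQ]; linarith
  have hσ0 : 0 < σ := by
    by_contra h
    push Not at h
    have : σ * Q ≤ 0 := mul_nonpos_of_nonpos_of_nonneg h hQ0.le
    linarith
  have hν1 : 5 / 6 ≤ ν * Q ^ 10 := by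
    rw [hν, div_mul_eq_mul_div, div_le_div_iff₀ (by norm_num) (by positivity)]
    have : Q ^ 2 * C ≤ Q ^ 2 * Q ^ 8 := mul_le_mul_of_nonneg_left hC2 (by positivity)
    nlinarith
  have hν2 : ν * Q ^ 10 ≤ 5 / 3 := by
    rw [hν, div_mul_eq_mul_div, div_le_div_iff₀ (by positivity) (by norm_num)]
    have : Q ^ 2 * (Q ^ 8 / 2) ≤ Q ^ 2 * C := mul_le_mul_of_nonneg_left hC1 (by positivity)
    nlinarith
  set X : ℝ := √(σ / (3 * ν * Q)) with hX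
  have hXsq : X ^ 2 = σ / (3 * ν * Q) := Real.sq_sqrt (by positivity)
  have hX0 : 0 ≤ X := Real.sqrt_nonneg _
  have hXe : 3 * ν * X ^ 2 = σ / Q := by rw [hXsq]; field_simp
  have hXe' : 3 * (ν * Q ^ 10) * X ^ 2 = σ * Q * Q ^ 8 := by
    have : 3 * (ν * Q ^ 10) * X ^ 2 = (3 * ν * X ^ 2) * Q ^ 10 := by ring
    rw [this, hXe]; field_simp
  have hX1 : Q ^ 4 / 3 ≤ X := by
    by_contra h
    push Not at h
    have h1 : X ^ 2 ≤ (Q ^ 4 / 3) ^ 2 := pow_le_pow_left₀ hX0 h.le 2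
    have h2 : 3 * (ν * Q ^ 10) * X ^ 2 ≤ 3 * (5 / 3) * (Q ^ 4 / 3) ^ 2 := by
      apply mul_le_mul _ h1 (by positivity) (by norm_num); linarith
    have h3 : 1 * Q ^ 8 ≤ σ * Q * Q ^ 8 := mul_le_mul_of_nonneg_right hσ1 hQ8.le
    nlinarith
  have hX2 : X ≤ 11 / 10 * Q ^ 4 := by
    by_contra h
    push Not at h
    have h1 : (11 / 10 * Q ^ 4) ^ 2 ≤ X ^ 2 := pow_le_pow_left₀ (by positivity) h.le 2
    have h2 : 3 * (5 / 6) * (11 / 10 * Q ^ 4) ^ 2 ≤ 3 * (ν * Q ^ 10) * X ^ 2 := by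
      apply mul_le_mul _ h1 (by positivity) (by positivity); linarith
    have h3 : σ * Q * Q ^ 8 ≤ 3 * Q ^ 8 := mul_le_mul_of_nonneg_right hσ2 hQ8.le
    nlinarith
  have hQQ : Q + 1 ≤ Q ^ 4 / 3 := by
    have h1 : 25 * Q ^ 2 ≤ Q ^ 2 * Q ^ 2 := mul_le_mul_of_nonneg_right hQ2 (by positivity)
    nlinarith
  obtain ⟨n, t, h1, h2, h3, h4⟩ := sweep ν X x0 (-(A - B * x0 + x0 ^ 2 / Q ^ 2) + σ * x0 / Q)
    (500 / Q ^ 2) Q (by linarith) hν1 hν2 hX1 hX2 (by linarith)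
  set x : ℝ := x0 + Q * t with hx
  have hxn : 0 ≤ x := by linarith
  set u : ℤ := n + Z * t + (t : ℤ) ^ 2 with hu
  set η : ℝ := u - (A - B * x + x ^ 2 / Q ^ 2) with hη
  have hηe : η = n + (-(A - B * x0 + x0 ^ 2 / Q ^ 2) + σ * x0 / Q) - 3 * ν * X ^ 2 * x := by
    rw [hXe, hη, hu, hx, hσ, hβ, hx0]
    push_cast
    field_simp
    ring
  have hb := err_bound C Q x η (η + ν * x ^ 3) hQ5 hC1 hC2 hxn h2 rfl
    (by rw [hηe]; linarith) (by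
      rw [hηe]
      have : (540 : ℝ) / Q ^ 2 = 500 / Q ^ 2 + 40 / Q ^ 2 := by ring
      linarith)
  obtain ⟨hb1, hb2, hb3⟩ := hb
  have hue : A - B * x + x ^ 2 / Q ^ 2 + η = u := by rw [hη]; ring
  rw [hue] at hb2 hb3
  have hce : C + x = ((ca + s + q * t : ℕ) : ℝ) := by
    rw [hx, hx0]; push_cast; ring
  rw [hce] at hb2 hb3
  have hA1 : 2 / 3 * Q ^ 14 ≤ A := by
    rw [hA, le_div_iff₀ (by positivity)]
    have : (Q ^ 8 / 2) ^ 2 ≤ C ^ 2 := pow_le_pow_left₀ (by positivity) hC1 2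
    nlinarith
  have hA2 : A ≤ 8 / 3 * Q ^ 14 := by
    rw [hA, div_le_iff₀ (by positivity)]
    have : C ^ 2 ≤ (Q ^ 8) ^ 2 := pow_le_pow_left₀ hC0.le hC2 2
    nlinarith
  have hQ48 : 625 * Q ^ 4 ≤ Q ^ 8 := by
    have : 625 * Q ^ 4 ≤ Q ^ 4 * Q ^ 4 := mul_le_mul_of_nonneg_right hQ4 (by positivity)
    nlinarith
  have hxC : x ≤ C := by nlinarith [pow_pos hQ0 4]
  have hBx : B * x ≤ A / 2 := by
    have : B * x ≤ B * C := mul_le_mul_of_nonneg_left hxC (by positivity)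
    have h5 : B * C = A / 2 := by rw [hA, hB]; field_simp; ring
    linarith
  have hBx0 : 0 ≤ B * x := by positivity
  have hx2 : x ^ 2 / Q ^ 2 ≤ 3 / 8 * A := by
    have h5 : 3 / 8 * A = C ^ 2 / Q ^ 2 := by rw [hA]; field_simp
    rw [h5]
    exact div_le_div_of_nonneg_right (pow_le_pow_left₀ hxn hxC 2) (by positivity)
  have hx20 : 0 ≤ x ^ 2 / Q ^ 2 := by positivity
  rw [abs_le] at hb1
  have hQ14 : 625 * Q ^ 2 ≤ Q ^ 14 := by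
    have h5 : 1 ≤ Q ^ 8 := one_le_pow₀ (by linarith)
    have h6 : 625 * Q ^ 2 ≤ Q ^ 4 * Q ^ 2 := mul_le_mul_of_nonneg_right hQ4 (by positivity)
    have h7 : Q ^ 4 * Q ^ 2 * 1 ≤ Q ^ 4 * Q ^ 2 * Q ^ 8 :=
      mul_le_mul_of_nonneg_left h5 (by positivity)
    nlinarith
  refine ⟨ca + s + q * t, u, ?_, ?_, ?_, ?_, hb2, hb3⟩
  · rw [← hce]; linarith
  · rw [← hce]; linarith
  · rw [← hue]; linarith [hb1.1]
  · rw [← hue]; nlinarith [hb1.2, pow_pos hQ0 2]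

/-- A product of three small factors just above `m`. -/
theorem three_factors (q : ℕ) (hq : 5 ≤ q) (C : ℝ) (hC1 : (q : ℝ) ^ 8 / 2 ≤ C)
    (hC2 : C ≤ (q : ℝ) ^ 8) (m : ℕ) (hm : (m : ℝ) = 64 * C ^ 5 / (9 * (q : ℝ) ^ 4)) :
    ∃ c a b : ℕ, 0 < c ∧ c < a ∧ a ≤ b ∧ b ≤ 10 * q ^ 14 ∧ m ≤ c * a * b ∧
      c * a * b ≤ m + 302 * q ^ 14 := by
  obtain ⟨c, u, h1, h2, h3, h4, h5, h6⟩ := near_point q hq C hC1 hC2
  set Q : ℝ := (q : ℝ) with hQ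
  have hQ5 : (5 : ℝ) ≤ Q := by rw [hQ]; exact_mod_cast hq
  have hQ0 : 0 < Q := by linarith
  have hQ8 : 0 < Q ^ 8 := by positivity
  have hC0 : 0 < C := by linarith
  have hc0 : (0 : ℝ) < c := by linarith
  have hc0' : 0 < c := by exact_mod_cast hc0
  have hQ2 : 25 ≤ Q ^ 2 := by nlinarith
  have hQ6 : 625 ≤ Q ^ 6 := by
    have : (5 : ℝ) ^ 6 ≤ Q ^ 6 := pow_le_pow_left₀ (by norm_num) hQ5 6
    linarith
  have hQ1 : 1 ≤ Q := by linarith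
  have h28 : Q ^ 2 ≤ Q ^ 8 := pow_le_pow_right₀ hQ1 (by norm_num)
  have h68 : Q ^ 6 ≤ Q ^ 8 := pow_le_pow_right₀ hQ1 (by norm_num)
  have h814 : 625 * Q ^ 8 ≤ Q ^ 14 := by
    have : 625 * Q ^ 8 ≤ Q ^ 6 * Q ^ 8 := mul_le_mul_of_nonneg_right hQ6 hQ8.le
    nlinarith
  have hu0 : (0 : ℝ) ≤ u := by linarith
  obtain ⟨U, rfl⟩ : ∃ U : ℕ, u = U := ⟨u.toNat, by
    have : 0 ≤ u := by exact_mod_cast hu0
    omega⟩
  rw [← hm] at h5 h6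
  push_cast at h3 h4 h5 h6 hu0
  have hmle : m ≤ c * U ^ 2 := by
    have : (m : ℝ) ≤ c * (U : ℝ) ^ 2 := by linarith
    exact_mod_cast this
  obtain ⟨F, hF⟩ : ∃ F : ℕ, c * U ^ 2 = m + F := ⟨c * U ^ 2 - m, by omega⟩
  have hFr : (F : ℝ) = c * (U : ℝ) ^ 2 - m := by
    have : (c : ℝ) * (U : ℝ) ^ 2 = m + F := by exact_mod_cast hF
    linarith
  set v := Nat.sqrt (F / c) with hv
  have hv1 : c * v ^ 2 ≤ F := by
    have h7 : v ^ 2 ≤ F / c := by rw [hv]; exact Nat.sqrt_le' _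
    calc c * v ^ 2 ≤ c * (F / c) := Nat.mul_le_mul_left _ h7
      _ ≤ F := Nat.mul_div_le _ _
  have hv2 : F < c * (v + 1) ^ 2 := by
    have h7 : F / c < (v + 1) ^ 2 := by rw [hv]; exact Nat.lt_succ_sqrt' _
    have h8 : F < c * (F / c + 1) := Nat.lt_mul_div_succ F hc0'
    calc F < c * (F / c + 1) := h8
      _ ≤ c * (v + 1) ^ 2 := Nat.mul_le_mul_left _ h7
  have hvr : (v : ℝ) ≤ 75 * Q ^ 6 := by
    by_contra h
    push Not at h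
    have h7 : (75 * Q ^ 6) ^ 2 < (v : ℝ) ^ 2 := pow_lt_pow_left₀ h (by positivity) (by norm_num)
    have h8 : (c : ℝ) * (v : ℝ) ^ 2 ≤ F := by exact_mod_cast hv1
    have h9 : C * (5547 * Q ^ 12) ≤ c * (5547 * Q ^ 12) :=
      mul_le_mul_of_nonneg_right h1 (by positivity)
    have h10 : (c : ℝ) * (75 * Q ^ 6) ^ 2 < c * (v : ℝ) ^ 2 := mul_lt_mul_of_pos_left h7 hc0
    have h11 : (0 : ℝ) < c * Q ^ 12 := by positivity
    nlinarith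
  have hlt : c + v < U := by
    have : (c : ℝ) + v < U := by linarith
    exact_mod_cast this
  obtain ⟨a, ha⟩ : ∃ a : ℕ, U = a + v := ⟨U - v, by omega⟩
  have hprod : c * a * (a + 2 * v) + c * v ^ 2 = m + F := by rw [← hF, ha]; ring
  have hb : a + 2 * v ≤ 10 * q ^ 14 := by
    have h7 : (a : ℝ) + v = U := by rw [ha]; push_cast; ring
    have h8 : (v : ℝ) ≤ U := by
      have : (0 : ℝ) ≤ a := Nat.cast_nonneg _
      linarith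
    have : ((a + 2 * v : ℕ) : ℝ) ≤ ((10 * q ^ 14 : ℕ) : ℝ) := by push_cast; linarith
    exact_mod_cast this
  have hcv : c * (2 * v + 1) ≤ 302 * q ^ 14 := by
    have h7 : (2 * (v : ℝ) + 1) ≤ 151 * Q ^ 6 := by linarith
    have h8 : (c : ℝ) * (2 * (v : ℝ) + 1) ≤ 2 * Q ^ 8 * (151 * Q ^ 6) :=
      mul_le_mul h2 h7 (by positivity) (by positivity)
    have : ((c * (2 * v + 1) : ℕ) : ℝ) ≤ ((302 * q ^ 14 : ℕ) : ℝ) := by
      push_cast; nlinarith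
    exact_mod_cast this
  refine ⟨c, a, a + 2 * v, hc0', by omega, by omega, hb, by omega, ?_⟩
  have : c * (v + 1) ^ 2 = c * v ^ 2 + c * (2 * v + 1) := by ring
  omega

end Pool.Agent.P.MP_b60056_nt
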